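import Pool.Agent.Helper23.GK.StC

set_option autoImplicit false

namespace Pool.Agent.Helper22.GK

open Pool.Agent.Helper23.GK
open scoped ArithmeticFunction.vonMangoldt

/-- `∑ n^{-σ} ≤ σ/(σ-1)` -/
theorem tfo_zeta {σ : ℝ} (hσ : 1 < σ) : ∑' n : ℕ, 1 / (n + 1 : ℝ) ^ σ ≤ σ / (σ - 1) := by
  have h := ZetaAsymptotics.zeta_limit_aux1 hσ
  have h1 : 0 ≤ ZetaAsymptotics.termTSum σ := tsum_nonneg fun n => ZetaAsymptotics.term_nonneg _ _
  have h2 : 0 < σ - 1 := by linarith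
  have h3 : σ / (σ - 1) = 1 + 1 / (σ - 1) := by field_simp; ring
  rw [h3]
  nlinarith

theorem tfo_inv (q : ℕ) [NeZero q] (χ : DirichletCharacter ℂ q) (s : ℂ) (hs : 1 < s.re) :
    DirichletCharacter.LFunction χ s ≠ 0 ∧
    ‖(DirichletCharacter.LFunction χ s)⁻¹‖ ≤ s.re / (s.re - 1) := by
  rw [DirichletCharacter.LFunction_eq_LSeries χ hs]
  refine ⟨DirichletCharacter.LSeries_ne_zero_of_one_lt_re χ hs, ?_⟩
  have h1 := DirichletCharacter.LSeries.mul_mu_eq_one χ hs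
  rw [inv_eq_of_mul_eq_one_right h1]
  have hsum := (Real.summable_one_div_nat_add_rpow 1 s.re).2 hs
  have e1 : ∀ n : ℕ, 1 / |(n : ℝ) + 1| ^ s.re = 1 / ((n : ℝ) + 1) ^ s.re := fun n => by
    rw [abs_of_pos (by positivity)]
  have hsum' : Summable fun n : ℕ => 1 / ((n : ℝ) + 1) ^ s.re := by
    refine hsum.congr fun n => ?_
    exact e1 n
  have hb : ∀ n : ℕ, ‖LSeries.term ((fun n : ℕ => χ n) * fun n : ℕ =>
      ((ArithmeticFunction.moebius n : ℤ) : ℂ)) s (n + 1)‖ ≤ 1 / ((n : ℝ) + 1) ^ s.re := by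
    intro n
    rw [LSeries.term_of_ne_zero (Nat.succ_ne_zero n), norm_div,
      Complex.norm_natCast_cpow_of_pos (Nat.succ_pos n)]
    push_cast
    refine div_le_div_of_nonneg_right ?_ (by positivity)
    rw [Pi.mul_apply, norm_mul]
    have h2 := χ.norm_le_one ((n + 1 : ℕ) : ZMod q)
    have h3 : ‖((ArithmeticFunction.moebius (n + 1) : ℤ) : ℂ)‖ ≤ 1 := by
      rw [Complex.norm_intCast]
      exact_mod_cast ArithmeticFunction.abs_moebius_le_one
    calc _ ≤ (1 : ℝ) * 1 := mul_le_mul h2 h3 (norm_nonneg _) zero_le_one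
      _ = 1 := one_mul 1
  have hs0 : Summable fun n : ℕ => ‖LSeries.term ((fun n : ℕ => χ n) * fun n : ℕ =>
      ((ArithmeticFunction.moebius n : ℤ) : ℂ)) s n‖ :=
    (DirichletCharacter.LSeriesSummable_mul χ
      (ArithmeticFunction.LSeriesSummable_moebius_iff.mpr hs)).norm
  calc ‖LSeries ((fun n : ℕ => χ n) * fun n : ℕ => ((ArithmeticFunction.moebius n : ℤ) : ℂ)) s‖
      ≤ ∑' n : ℕ, ‖LSeries.term ((fun n : ℕ => χ n) * fun n : ℕ =>
        ((ArithmeticFunction.moebius n : ℤ) : ℂ)) s n‖ := norm_tsum_le_tsum_norm hs0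
    _ = ∑' n : ℕ, ‖LSeries.term ((fun n : ℕ => χ n) * fun n : ℕ =>
        ((ArithmeticFunction.moebius n : ℤ) : ℂ)) s (n + 1)‖ := by
        rw [hs0.tsum_eq_zero_add, LSeries.term_zero, norm_zero, zero_add]
    _ ≤ ∑' n : ℕ, 1 / ((n : ℝ) + 1) ^ s.re :=
        Summable.tsum_le_tsum hb ((summable_nat_add_iff 1).2 hs0) hsum'
    _ ≤ _ := tfo_zeta hs

theorem tfo_D {q : ℕ} [NeZero q] (ψ : DirichletCharacter ℂ q) {s : ℂ} (hs : 1 < s.re) :
    -(deriv (DirichletCharacter.LFunction ψ) s / DirichletCharacter.LFunction ψ s) =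
      ∑' n : ℕ, LSeries.term ((fun n : ℕ => ψ n) * fun n : ℕ => ((Λ n : ℝ) : ℂ)) s n := by
  have := DirichletCharacter.LSeries_twist_vonMangoldt_eq ψ hs
  rw [DirichletCharacter.LFunction_eq_LSeries ψ hs,
    DirichletCharacter.deriv_LFunction_eq_deriv_LSeries ψ hs, ← neg_div, ← this]
  rfl

theorem tfo_re {q : ℕ} [NeZero q] (ψ : DirichletCharacter ℂ q) {s : ℂ} (hs : 1 < s.re) :
    (-(deriv (DirichletCharacter.LFunction ψ) s / DirichletCharacter.LFunction ψ s)).re =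
      ∑' n : ℕ, (LSeries.term ((fun n : ℕ => ψ n) * fun n : ℕ => ((Λ n : ℝ) : ℂ)) s n).re ∧
    Summable fun n : ℕ =>
      (LSeries.term ((fun n : ℕ => ψ n) * fun n : ℕ => ((Λ n : ℝ) : ℂ)) s n).re := by
  have h := DirichletCharacter.LSeriesSummable_twist_vonMangoldt ψ hs
  have h' : Summable (LSeries.term ((fun n : ℕ => ψ n) * fun n : ℕ => ((Λ n : ℝ) : ℂ)) s) := h
  refine ⟨?_, ?_⟩
  · rw [tfo_D ψ hs]
    exact Complex.re_tsum h'
  · exact (Complex.reCLM.summable h')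

/-- the terms -/
theorem tfo_term {q : ℕ} [NeZero q] (ψ : DirichletCharacter ℂ q) (σ t : ℝ) {n : ℕ} (hn : n ≠ 0) :
    LSeries.term ((fun n : ℕ => ψ n) * fun n : ℕ => ((Λ n : ℝ) : ℂ)) (σ + t * Complex.I) n =
      ((Λ n * (n : ℝ) ^ (-σ) : ℝ) : ℂ) * (ψ n * Complex.exp (-(t * Real.log n * Complex.I))) := by
  rw [LSeries.term_of_ne_zero hn, Pi.mul_apply, div_eq_mul_inv, ← Complex.cpow_neg,
    show -((σ : ℂ) + t * Complex.I) = ((-σ : ℝ) : ℂ) + -(t * Complex.I) by push_cast; ring,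
    Complex.cpow_add _ _ (Nat.cast_ne_zero.2 hn)]
  have h1 : (n : ℂ) ^ (((-σ : ℝ)) : ℂ) = (((n : ℝ) ^ (-σ) : ℝ) : ℂ) := by
    rw [Complex.ofReal_cpow (Nat.cast_nonneg n)]
    simp
  have h2 : (n : ℂ) ^ (-(t * Complex.I) : ℂ) = Complex.exp (-(t * Real.log n * Complex.I)) := by
    rw [Complex.cpow_def_of_ne_zero (Nat.cast_ne_zero.2 hn), ← Complex.natCast_log]
    congr 1
    ring
  rw [h1, h2]
  push_cast
  ring

theorem tfo_term0 {q : ℕ} [NeZero q] (ψ : DirichletCharacter ℂ q) (σ : ℝ) {n : ℕ} (hn : n ≠ 0) :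
    LSeries.term ((fun n : ℕ => ψ n) * fun n : ℕ => ((Λ n : ℝ) : ℂ)) σ n =
      ((Λ n * (n : ℝ) ^ (-σ) : ℝ) : ℂ) * ψ n := by
  have h := tfo_term ψ σ 0 hn
  have e1 : (σ : ℂ) + ((0 : ℝ) : ℂ) * Complex.I = σ := by simp
  have e2 : Complex.exp (-(((0 : ℝ) : ℂ) * Real.log n * Complex.I)) = 1 := by simp
  rw [e1, e2, mul_one] at h
  exact h

/-- `3 + 4 cos φ + cos 2φ ≥ 0` -/
theorem tfo_trig {z : ℂ} (hz : ‖z‖ = 1) : 0 ≤ 3 + 4 * z.re + (z ^ 2).re := by
  have h1 : z.re ^ 2 + z.im ^ 2 = 1 := by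
    have := Complex.sq_norm z
    rw [hz, Complex.normSq_apply] at this
    nlinarith
  have h2 : (z ^ 2).re = z.re ^ 2 - z.im ^ 2 := by
    rw [sq, Complex.mul_re]; ring
  rw [h2]
  nlinarith [sq_nonneg (1 + z.re)]

theorem tfo_one (q : ℕ) [NeZero q] (χ : DirichletCharacter ℂ q) (σ t : ℝ) (hσ : 1 < σ) :
    0 ≤ 3 * (-(deriv (DirichletCharacter.LFunction (1 : DirichletCharacter ℂ q)) σ /
        DirichletCharacter.LFunction (1 : DirichletCharacter ℂ q) σ)).re +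
      4 * (-(deriv (DirichletCharacter.LFunction χ) (σ + t * Complex.I) /
        DirichletCharacter.LFunction χ (σ + t * Complex.I))).re +
      (-(deriv (DirichletCharacter.LFunction (χ ^ 2)) (σ + 2 * t * Complex.I) /
        DirichletCharacter.LFunction (χ ^ 2) (σ + 2 * t * Complex.I))).re := by
  have e1 : (σ : ℂ) = σ + ((0 : ℝ) : ℂ) * Complex.I := by simp
  have e2 : (σ : ℂ) + 2 * t * Complex.I = σ + ((2 * t : ℝ) : ℂ) * Complex.I := by push_cast; ring
  have hr : ∀ x : ℝ, 1 < ((σ : ℂ) + x * Complex.I).re := fun x => by simpa using hσ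
  have h1 := tfo_re (1 : DirichletCharacter ℂ q) (hr 0)
  have h2 := tfo_re χ (hr t)
  have h3 := tfo_re (χ ^ 2) (hr (2 * t))
  rw [← e1] at h1
  rw [e2, h1.1, h2.1, h3.1, ← tsum_mul_left, ← tsum_mul_left,
    ← (h1.2.mul_left 3).tsum_add (h2.2.mul_left 4),
    ← ((h1.2.mul_left 3).add (h2.2.mul_left 4)).tsum_add h3.2]
  refine tsum_nonneg fun n => ?_
  rcases eq_or_ne n 0 with rfl | hn
  · simp
  rw [tfo_term0 _ σ hn, tfo_term _ σ t hn, tfo_term _ σ (2 * t) hn]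
  have hc : 0 ≤ Λ n * (n : ℝ) ^ (-σ) :=
    mul_nonneg ArithmeticFunction.vonMangoldt_nonneg (Real.rpow_nonneg (Nat.cast_nonneg n) _)
  rw [Complex.re_ofReal_mul, Complex.re_ofReal_mul, Complex.re_ofReal_mul]
  by_cases hu : IsUnit (n : ZMod q)
  · have hχ : ‖χ n‖ = 1 := by
      obtain ⟨u, hu⟩ := hu
      rw [← hu]
      exact χ.unit_norm_eq_one u
    have hw : ‖Complex.exp (-(t * Real.log n * Complex.I))‖ = 1 := by
      have : (-(t * Real.log n * Complex.I) : ℂ) = ((-(t * Real.log n) : ℝ) : ℂ) * Complex.I := by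
        push_cast; ring
      rw [this, Complex.norm_exp_ofReal_mul_I]
    have h4 := tfo_trig (z := χ n * Complex.exp (-(t * Real.log n * Complex.I)))
      (by rw [norm_mul, hχ, hw, one_mul])
    have h5 : ((χ ^ 2) (n : ZMod q) * Complex.exp (-(((2 * t : ℝ) : ℂ) * Real.log n * Complex.I))) =
        (χ n * Complex.exp (-(t * Real.log n * Complex.I))) ^ 2 := by
      rw [mul_pow, ← Complex.exp_nat_mul, MulChar.pow_apply' χ two_ne_zero]
      congr 2
      push_cast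
      ring
    have h6 : (1 : DirichletCharacter ℂ q) (n : ZMod q) = 1 := MulChar.one_apply hu
    rw [h5, h6]
    have := mul_nonneg hc h4
    rw [Complex.one_re]
    linarith
  · have h7 : ∀ ψ : DirichletCharacter ℂ q, ψ (n : ZMod q) = 0 := fun ψ => ψ.map_nonunit hu
    simp [h7]

theorem tfo_two : ∃ C : ℝ, 0 < C ∧ ∀ (q : ℕ) [NeZero q] (σ : ℝ), 1 < σ → σ ≤ 2 →
    (-(deriv (DirichletCharacter.LFunction (1 : DirichletCharacter ℂ q)) σ /
      DirichletCharacter.LFunction (1 : DirichletCharacter ℂ q) σ)).re ≤ 1 / (σ - 1) + C := by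
  have hcont := DirichletCharacter.continuousOn_neg_logDeriv_LFunctionTrivChar₁ 1
  have hK : IsCompact ((fun x : ℝ => (x : ℂ)) '' Set.Icc 1 2) :=
    isCompact_Icc.image Complex.continuous_ofReal
  obtain ⟨C, hC⟩ := hK.exists_bound_of_continuousOn (hcont.mono (by
    rintro _ ⟨x, hx, rfl⟩
    rcases eq_or_ne x 1 with rfl | hx1
    · exact Or.inl (by simp)
    · refine Or.inr ?_
      exact DirichletCharacter.LFunction_ne_zero_of_one_le_re 1
        (Or.inr (by simpa using hx1)) (by simpa using hx.1)))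
  refine ⟨|C| + 1, by positivity, fun q _ σ hσ hσ2 => ?_⟩
  have hr : 1 < ((σ : ℝ) : ℂ).re := by simpa using hσ
  -- comparison with the modulus `1`
  have h1 := tfo_re (1 : DirichletCharacter ℂ q) hr
  have h2 := tfo_re (1 : DirichletCharacter ℂ 1) hr
  have h3 : (-(deriv (DirichletCharacter.LFunction (1 : DirichletCharacter ℂ q)) σ /
      DirichletCharacter.LFunction (1 : DirichletCharacter ℂ q) σ)).re ≤
      (-(deriv (DirichletCharacter.LFunction (1 : DirichletCharacter ℂ 1)) σ /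
      DirichletCharacter.LFunction (1 : DirichletCharacter ℂ 1) σ)).re := by
    rw [h1.1, h2.1]
    refine Summable.tsum_le_tsum (fun n => ?_) h1.2 h2.2
    rcases eq_or_ne n 0 with rfl | hn
    · simp
    have hc : 0 ≤ Λ n * (n : ℝ) ^ (-σ) :=
      mul_nonneg ArithmeticFunction.vonMangoldt_nonneg (Real.rpow_nonneg (Nat.cast_nonneg n) _)
    rw [tfo_term0 _ σ hn, tfo_term0 _ σ hn, Complex.re_ofReal_mul, Complex.re_ofReal_mul]
    refine mul_le_mul_of_nonneg_left ?_ hc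
    have h4 : (1 : DirichletCharacter ℂ 1) (n : ZMod 1) = 1 :=
      MulChar.one_apply (isUnit_of_subsingleton _)
    rw [h4, Complex.one_re]
    by_cases hu : IsUnit (n : ZMod q)
    · rw [MulChar.one_apply hu]
      simp
    · rw [(1 : DirichletCharacter ℂ q).map_nonunit hu]
      simp
  refine h3.trans ?_
  have h5 := hC σ ⟨σ, ⟨hσ.le, hσ2⟩, rfl⟩
  have hs1 : (σ : ℂ) ≠ 1 := by
    intro h
    have : σ = 1 := by exact_mod_cast h
    linarith
  have hL : DirichletCharacter.LFunction (1 : DirichletCharacter ℂ 1) σ ≠ 0 :=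
    DirichletCharacter.LFunction_ne_zero_of_one_le_re 1 (Or.inr hs1) hr.le
  have h6 : -deriv (DirichletCharacter.LFunctionTrivChar₁ 1) σ /
      DirichletCharacter.LFunctionTrivChar₁ 1 σ =
      -(deriv (DirichletCharacter.LFunction (1 : DirichletCharacter ℂ 1)) σ /
      DirichletCharacter.LFunction (1 : DirichletCharacter ℂ 1) σ) - 1 / (σ - 1) := by
    rw [DirichletCharacter.deriv_LFunctionTrivChar₁_apply_of_ne_one _ hs1,
      DirichletCharacter.LFunctionTrivChar₁, Function.update_of_ne hs1,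
      DirichletCharacter.LFunctionTrivChar]
    have : (σ : ℂ) - 1 ≠ 0 := sub_ne_zero.2 hs1
    field_simp
    ring
  have h7 := (Complex.re_le_norm _).trans h5
  rw [h6, Complex.sub_re] at h7
  have h8 : (1 / ((σ : ℂ) - 1)).re = 1 / (σ - 1) := by
    rw [← Complex.ofReal_one, ← Complex.ofReal_sub, ← Complex.ofReal_div, Complex.ofReal_re]
  rw [h8] at h7
  linarith [le_abs_self C]

theorem hTFO : StTfo :=
  ⟨fun q _ χ σ t hσ => tfo_one q χ σ t hσ, tfo_two, fun q _ χ s hs => tfo_inv q χ s hs⟩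

end Pool.Agent.Helper22.GK
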