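import Pool.Agent.Helper23.GK.StC

/-! Project GK, module ZFR: zero-free region -/

set_option autoImplicit false

namespace Pool.Agent.Helper22.GK

open Pool.Agent.Helper23.GK

theorem el_two_le {t : ℝ} (ht : 5 ≤ |t|) : 2 ≤ el t := by
  unfold el
  rw [Real.le_log_iff_exp_le (by positivity)]
  have h1 := Real.exp_one_lt_d9
  have h2 : Real.exp 2 = Real.exp 1 * Real.exp 1 := by rw [← Real.exp_add]; norm_num
  rw [h2]
  have h3 := Real.exp_pos 1
  nlinarith

theorem el_le_two {t t' : ℝ} (ht : |t'| ≤ 2 * |t| + 1) : el t' ≤ 2 * el t := by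
  unfold el
  have h0 := abs_nonneg t
  have h1 := abs_nonneg t'
  have e1 : 2 * Real.log (|t| + 3) = Real.log ((|t| + 3) ^ 2) := by
    rw [Real.log_pow]; norm_num
  rw [e1]
  refine Real.log_le_log (by positivity) ?_
  nlinarith

theorem vv_le_two {t t' : ℝ} (h0 : 0 ≤ el t') (h0' : 0 ≤ el t) (h : el t' ≤ 2 * el t) :
    vv t' ≤ 2 * vv t := by
  unfold vv
  calc el t' ^ (9 / 10 : ℝ) ≤ (2 * el t) ^ (9 / 10 : ℝ) :=
        Real.rpow_le_rpow h0 h (by norm_num)
    _ = 2 ^ (9 / 10 : ℝ) * el t ^ (9 / 10 : ℝ) := Real.mul_rpow (by norm_num) h0'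
    _ ≤ 2 * el t ^ (9 / 10 : ℝ) := by
        refine mul_le_mul_of_nonneg_right ?_ (Real.rpow_nonneg h0' _)
        calc (2 : ℝ) ^ (9 / 10 : ℝ) ≤ 2 ^ (1 : ℝ) :=
              Real.rpow_le_rpow_of_exponent_le (by norm_num) (by norm_num)
          _ = 2 := Real.rpow_one 2

theorem el_sub_one {t t' : ℝ} (ht : |t| ≤ |t'| + 1) : el t - 1 ≤ el t' := by
  unfold el
  have h0 := abs_nonneg t
  have h1 := abs_nonneg t'
  have h2 : |t| + 3 ≤ Real.exp 1 * (|t'| + 3) := by
    have h3 : (2 : ℝ) ≤ Real.exp 1 := by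
      have := Real.add_one_le_exp (1 : ℝ)
      linarith
    nlinarith
  have h4 := Real.log_le_log (by positivity) h2
  rw [Real.log_mul (Real.exp_pos 1).ne' (by positivity), Real.log_exp] at h4
  linarith

/-- the values of `L(s, χ)` in a disc -/
theorem disc_bound {C : ℝ} (hC : 1 ≤ C)
    (hG : ∀ (q : ℕ) [NeZero q] (χ : DirichletCharacter ℂ q) (σ t : ℝ),
      2 ≤ |t| → Real.log q ≤ el t → 1 - 1 / (2 * vv t) ≤ σ → σ ≤ 3 →
      ‖DirichletCharacter.LFunction χ (σ + t * Complex.I)‖ ≤ C * q ^ 3 * el t)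
    (q : ℕ) [NeZero q] (χ : DirichletCharacter ℂ q) {γ γ' σ₀ : ℝ} (hγ : 10 ≤ |γ|)
    (hq : Real.log q ≤ el γ - 1) (h1 : |γ| ≤ |γ'|) (h2 : |γ'| ≤ 2 * |γ|)
    (hσ₀ : 1 ≤ σ₀) (hσ₁ : σ₀ ≤ 2) {s : ℂ}
    (hs : ‖s - (σ₀ + γ' * Complex.I)‖ ≤ 1 / (8 * vv γ)) :
    9 ≤ |s.im| ∧ ‖DirichletCharacter.LFunction χ s‖ ≤ 2 * C * q ^ 3 * el γ := by
  have hel : 2 ≤ el γ := el_two_le (by linarith)
  have hV : 1 ≤ vv γ := Real.one_le_rpow (by linarith) (by norm_num)
  have hr : 1 / (8 * vv γ) ≤ 1 := by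
    rw [div_le_one (by positivity)]; linarith
  have him : |s.im - γ'| ≤ 1 / (8 * vv γ) := by
    have := Complex.abs_im_le_norm (s - (σ₀ + γ' * Complex.I))
    simp only [Complex.sub_im, Complex.add_im, Complex.ofReal_im, Complex.mul_im,
      Complex.ofReal_re, Complex.I_im, mul_one, Complex.I_re, mul_zero, add_zero, zero_add] at this
    exact this.trans hs
  have hre : |s.re - σ₀| ≤ 1 / (8 * vv γ) := by
    have := Complex.abs_re_le_norm (s - (σ₀ + γ' * Complex.I))
    simp only [Complex.sub_re, Complex.add_re, Complex.ofReal_re, Complex.mul_re,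
      Complex.ofReal_im, Complex.I_im, mul_one, Complex.I_re, mul_zero, add_zero, sub_zero,
      sub_self] at this
    exact this.trans hs
  have hd : |γ'| - |s.im| ≤ 1 := by
    have := abs_sub_abs_le_abs_sub γ' s.im
    rw [abs_sub_comm] at this
    linarith
  have hd' : |s.im| - |γ'| ≤ 1 := by
    have := abs_sub_abs_le_abs_sub s.im γ'
    linarith
  have h9 : 9 ≤ |s.im| := by linarith
  refine ⟨h9, ?_⟩
  have hel' : 2 ≤ el s.im := el_two_le (by linarith)
  have hee : el s.im ≤ 2 * el γ := el_le_two (by linarith)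
  have hvv : vv s.im ≤ 2 * vv γ := vv_le_two (by linarith) (by linarith) hee
  have hvp : 0 < vv s.im := Real.rpow_pos_of_pos (by linarith) _
  have hq' : Real.log q ≤ el s.im := hq.trans (el_sub_one (by linarith))
  have hσ : 1 - 1 / (2 * vv s.im) ≤ s.re := by
    have h3 : 1 / (8 * vv γ) ≤ 1 / (2 * vv s.im) :=
      one_div_le_one_div_of_le (by positivity) (by linarith)
    have := (abs_le.1 hre).1
    linarith
  have h5 := hG q χ s.re s.im (by linarith) hq' hσ (by have := (abs_le.1 hre).2; linarith)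
  rw [Complex.re_add_im] at h5
  refine h5.trans ?_
  have h6 : (0 : ℝ) ≤ C * q ^ 3 := by positivity
  calc C * q ^ 3 * el s.im ≤ C * q ^ 3 * (2 * el γ) := mul_le_mul_of_nonneg_left hee h6
    _ = 2 * C * q ^ 3 * el γ := by ring

theorem hZFR (hL : StLan) (hT : StTfo) (hG : StGro) : StZfr := by
  obtain ⟨CL, hCL, hL⟩ := hL
  obtain ⟨hT1, ⟨CT, hCT, hT2⟩, hT3⟩ := hT
  obtain ⟨CG, hCG, hG⟩ := hG
  have hlogG : 0 ≤ Real.log (4 * CG) := Real.log_nonneg (by linarith)
  -- the constants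
  obtain ⟨B₀, hB₀⟩ : ∃ B₀, B₀ = 3 * CT + 80 * CL * (4 + Real.log (4 * CG)) := ⟨_, rfl⟩
  obtain ⟨B₁, hB₁⟩ : ∃ B₁, B₁ = 160 * CL := ⟨_, rfl⟩
  have hB₀' : 0 < B₀ := by rw [hB₀]; positivity
  have hB₁' : 0 < B₁ := by rw [hB₁]; positivity
  obtain ⟨N, hN⟩ : ∃ N, N = 2 * (B₀ + B₁) + 10 := ⟨_, rfl⟩
  have hN10 : 10 ≤ N := by rw [hN]; linarith
  have hNpos : 0 < N := by linarith
  obtain ⟨a, ha⟩ : ∃ a, a = 1 / N ^ 2 := ⟨_, rfl⟩
  have ha0 : 0 < a := by rw [ha]; positivity
  have ha1 : a ≤ 1 / 100 := by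
    rw [ha]
    exact one_div_le_one_div_of_le (by norm_num) (by nlinarith)
  have hloga : Real.log (1 / a) ≤ 2 * N := by
    rw [ha, one_div_one_div, Real.log_pow]
    have := Real.log_le_self hNpos.le
    push_cast
    linarith
  have hlog0 : 0 ≤ Real.log (1 / a) := Real.log_nonneg (by
    rw [ha, one_div_one_div]; nlinarith)
  obtain ⟨Ka, hKa⟩ : ∃ Ka, Ka = 4 + Real.log (4 * CG) + Real.log (1 / a) := ⟨_, rfl⟩
  have hKa1 : 1 ≤ Ka := by rw [hKa]; linarith
  refine ⟨a / 10, by positivity, by linarith, ?_⟩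
  intro q _ χ β γ hγ hq hβ hzero
  have hq1 : 1 ≤ q := Nat.one_le_iff_ne_zero.2 (NeZero.ne q)
  have hq1' : (1 : ℝ) ≤ q := by exact_mod_cast hq1
  have hel : 2 ≤ el γ := el_two_le (by linarith)
  have hV : 1 ≤ vv γ := Real.one_le_rpow (by linarith) (by norm_num)
  have hVel : vv γ ≤ el γ := by
    calc vv γ ≤ el γ ^ (1 : ℝ) := Real.rpow_le_rpow_of_exponent_le (by linarith) (by norm_num)
      _ = el γ := Real.rpow_one _
  obtain ⟨M₁, hM₁⟩ : ∃ M₁, M₁ = Real.log (3 * q * el γ) := ⟨_, rfl⟩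
  have hq3 : 6 ≤ 3 * q * el γ := by nlinarith
  have hM₁1 : 1 ≤ M₁ := by
    rw [hM₁, Real.le_log_iff_exp_le (by linarith)]
    have := Real.exp_one_lt_d9
    linarith
  have hM₁le : M₁ ≤ 3 * q * el γ := by
    rw [hM₁]; exact Real.log_le_self (by linarith)
  obtain ⟨W, hW⟩ : ∃ W, W = wq q γ := ⟨_, rfl⟩
  have hWeq : W = vv γ * M₁ := by rw [hW, hM₁]; rfl
  have hWV : vv γ ≤ W := by rw [hWeq]; nlinarith
  have hW1 : 1 ≤ W := hV.trans hWV
  have hW0 : 0 < W := by linarith
  rw [← hW] at hβ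
  obtain ⟨σ₀, hσ₀⟩ : ∃ σ₀, σ₀ = 1 + a / W := ⟨_, rfl⟩
  have haW : 0 < a / W := by positivity
  have haW1 : a / W ≤ 1 := (div_le_one hW0).2 (by linarith)
  have hσ₀1 : 1 < σ₀ := by rw [hσ₀]; linarith
  have hσ₀2 : σ₀ ≤ 2 := by rw [hσ₀]; linarith
  -- the zero lies to the left of the line `1`
  have hγ0 : γ ≠ 0 := by
    rintro rfl
    rw [abs_zero] at hγ
    linarith
  have hβ1 : β < 1 := by
    by_contra hcon
    push Not at hcon
    refine DirichletCharacter.LFunction_ne_zero_of_one_le_re χ (s := β + γ * Complex.I)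
      (Or.inr ?_) ?_ hzero
    · intro h
      have := congrArg Complex.im h
      simp at this
      exact hγ0 this
    · simpa using hcon
  -- the bound of the logarithmic derivatives
  have hM : ∀ (ψ : DirichletCharacter ℂ q) (γ' : ℝ), |γ| ≤ |γ'| → |γ'| ≤ 2 * |γ| →
      (-(deriv (DirichletCharacter.LFunction ψ) (σ₀ + γ' * Complex.I) /
        DirichletCharacter.LFunction ψ (σ₀ + γ' * Complex.I))).re ≤ 16 * CL * Ka * W ∧
      ∀ ρ : ℂ, DirichletCharacter.LFunction ψ ρ = 0 →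
        ‖ρ - (σ₀ + γ' * Complex.I)‖ ≤ 1 / (16 * vv γ) / 2 →
        (-(deriv (DirichletCharacter.LFunction ψ) (σ₀ + γ' * Complex.I) /
          DirichletCharacter.LFunction ψ (σ₀ + γ' * Complex.I))).re ≤ 16 * CL * Ka * W -
            (1 / (σ₀ + γ' * Complex.I - ρ)).re := by
    intro ψ γ' h1 h2
    have e2 : 2 * (1 / (16 * vv γ)) = 1 / (8 * vv γ) := by field_simp; norm_num
    have hre : (σ₀ + γ' * Complex.I : ℂ).re = σ₀ := by simp
    have hne := hT3 q ψ (σ₀ + γ' * Complex.I) (by rw [hre]; exact hσ₀1)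
    have key := hL (DirichletCharacter.LFunction ψ) (σ₀ + γ' * Complex.I) (1 / (16 * vv γ))
      (M₁ * Ka) (by positivity) (by nlinarith) ?_ hne.1 ?_ ?_
    · have e3 : CL * (M₁ * Ka) / (1 / (16 * vv γ)) = 16 * CL * Ka * W := by
        rw [hWeq]; field_simp
      rw [e3] at key
      exact key
    · intro s hs
      rw [e2, Metric.mem_ball, dist_eq_norm] at hs
      have h3 := (disc_bound hCG hG q ψ hγ hq h1 h2 hσ₀1.le hσ₀2 hs.le).1
      refine (DirichletCharacter.differentiableAt_LFunction ψ s (Or.inl ?_)).differentiableWithinAt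
      rintro rfl
      simp at h3
      norm_num at h3
    · intro s hs
      rw [Metric.mem_closedBall, dist_eq_norm] at hs
      have hs' : ‖s - (σ₀ + γ' * Complex.I)‖ ≤ 1 / (8 * vv γ) :=
        hs.trans (by rw [← e2]; linarith [show (0 : ℝ) < 1 / (16 * vv γ) by positivity])
      have h3 := (disc_bound hCG hG q ψ hγ hq h1 h2 hσ₀1.le hσ₀2 hs').2
      have h4 := hne.2
      rw [hre] at h4
      have h5 : 0 < ‖DirichletCharacter.LFunction ψ (σ₀ + γ' * Complex.I)‖ :=
        norm_pos_iff.2 hne.1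
      have h6 : 1 ≤ 2 * W / a * ‖DirichletCharacter.LFunction ψ (σ₀ + γ' * Complex.I)‖ := by
        have h7 : σ₀ / (σ₀ - 1) ≤ 2 * W / a := by
          have e4 : σ₀ - 1 = a / W := by rw [hσ₀]; ring
          rw [e4, div_div_eq_mul_div]
          exact div_le_div_of_nonneg_right (by nlinarith) ha0.le
        have h8 := h4.trans h7
        rw [norm_inv] at h8
        calc (1 : ℝ) = ‖DirichletCharacter.LFunction ψ (σ₀ + γ' * Complex.I)‖⁻¹ *
              ‖DirichletCharacter.LFunction ψ (σ₀ + γ' * Complex.I)‖ :=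
              (inv_mul_cancel₀ h5.ne').symm
          _ ≤ _ := mul_le_mul_of_nonneg_right h8 h5.le
      have h9 : 2 * CG * q ^ 3 * el γ * (2 * W / a) ≤ Real.exp (M₁ * Ka) := by
        have h10 : (3 * q * el γ) ^ 4 * (4 * CG) * (1 / a) ≤ Real.exp (M₁ * Ka) := by
          have e5 : (3 * q * el γ) ^ 4 * (4 * CG) * (1 / a) =
              Real.exp (4 * M₁ + Real.log (4 * CG) + Real.log (1 / a)) := by
            rw [Real.exp_add, Real.exp_add, Real.exp_log (by linarith),
              Real.exp_log (by positivity), mul_comm 4 M₁, Real.exp_mul, hM₁,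
              Real.exp_log (by linarith)]
            norm_cast
          rw [e5]
          refine Real.exp_le_exp.2 ?_
          rw [hKa]
          nlinarith
        refine le_trans ?_ h10
        have h11 : W ≤ el γ * (3 * q * el γ) := by
          rw [hWeq]
          exact mul_le_mul hVel hM₁le (by linarith) (by linarith)
        have h12 : (q : ℝ) ^ 3 * el γ * W ≤ (3 * q * el γ) ^ 4 := by
          calc (q : ℝ) ^ 3 * el γ * W ≤ (q : ℝ) ^ 3 * el γ * (el γ * (3 * q * el γ)) :=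
                mul_le_mul_of_nonneg_left h11 (by positivity)
            _ = 3 * (q ^ 4 * el γ ^ 3) := by ring
            _ ≤ 3 * (q ^ 4 * el γ ^ 4) := by
                refine mul_le_mul_of_nonneg_left ?_ (by norm_num)
                refine mul_le_mul_of_nonneg_left ?_ (by positivity)
                exact pow_le_pow_right₀ (by linarith) (by norm_num)
            _ ≤ 81 * (q ^ 4 * el γ ^ 4) := by
                have : 0 ≤ (q : ℝ) ^ 4 * el γ ^ 4 := by positivity
                linarith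
            _ = (3 * q * el γ) ^ 4 := by ring
        calc 2 * CG * q ^ 3 * el γ * (2 * W / a) =
              ((q : ℝ) ^ 3 * el γ * W) * (4 * CG) * (1 / a) := by ring
          _ ≤ (3 * q * el γ) ^ 4 * (4 * CG) * (1 / a) := by
              refine mul_le_mul_of_nonneg_right ?_ (by positivity)
              exact mul_le_mul_of_nonneg_right h12 (by linarith)
      calc ‖DirichletCharacter.LFunction ψ s‖ ≤ 2 * CG * q ^ 3 * el γ := h3
        _ ≤ 2 * CG * q ^ 3 * el γ *
            (2 * W / a * ‖DirichletCharacter.LFunction ψ (σ₀ + γ' * Complex.I)‖) :=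
            le_mul_of_one_le_right (by positivity) h6
        _ = 2 * CG * q ^ 3 * el γ * (2 * W / a) *
            ‖DirichletCharacter.LFunction ψ (σ₀ + γ' * Complex.I)‖ := by ring
        _ ≤ _ := mul_le_mul_of_nonneg_right h9 h5.le
    · intro s hs hs0
      rw [hre]
      by_contra hcon
      push Not at hcon
      exact (hT3 q ψ s (by linarith)).1 hs0
  have hc2 : |2 * γ| = 2 * |γ| := by rw [abs_mul]; norm_num
  obtain ⟨-, hm1⟩ := hM χ γ le_rfl (by linarith [abs_nonneg γ])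
  obtain ⟨hm2, -⟩ := hM (χ ^ 2) (2 * γ) (by rw [hc2]; linarith [abs_nonneg γ]) hc2.le
  -- the distance of the zero
  have hd0 : 0 < σ₀ - β := by linarith
  have hd1 : σ₀ - β ≤ (a + a / 10) / W := by
    have : (a + a / 10) / W = a / W + a / 10 / W := by ring
    rw [this, hσ₀]; linarith
  have hdiff : (σ₀ + γ * Complex.I : ℂ) - (β + γ * Complex.I) = ((σ₀ - β : ℝ) : ℂ) := by
    push_cast; ring
  have hm3 := hm1 (β + γ * Complex.I) hzero (by
    rw [norm_sub_rev, hdiff, Complex.norm_real, Real.norm_eq_abs, abs_of_pos hd0]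
    refine hd1.trans ?_
    rw [div_div, div_le_div_iff₀ hW0 (by positivity)]
    nlinarith)
  rw [hdiff, ← Complex.ofReal_one, ← Complex.ofReal_div, Complex.ofReal_re] at hm3
  have hinv : W / (a + a / 10) ≤ 1 / (σ₀ - β) := by
    rw [le_div_iff₀ hd0]
    calc W / (a + a / 10) * (σ₀ - β) ≤ W / (a + a / 10) * ((a + a / 10) / W) :=
          mul_le_mul_of_nonneg_left hd1 (by positivity)
      _ = 1 := by field_simp
  have hm0 := hT2 q σ₀ hσ₀1 hσ₀2
  have e6 : 1 / (σ₀ - 1) = W / a := by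
    rw [hσ₀, add_sub_cancel_left, one_div_div]
  rw [e6] at hm0
  have hfin := hT1 q χ σ₀ γ hσ₀1
  simp only at hfin
  have hm2' : (-(deriv (DirichletCharacter.LFunction (χ ^ 2)) (σ₀ + 2 * γ * Complex.I) /
      DirichletCharacter.LFunction (χ ^ 2) (σ₀ + 2 * γ * Complex.I))).re ≤
      16 * CL * Ka * W := by
    have e7 : ((2 * γ : ℝ) : ℂ) = 2 * γ := by push_cast; ring
    rw [e7] at hm2
    exact hm2
  have h1 : 4 * (W / (a + a / 10)) ≤ 3 * (W / a) + 3 * CT + 80 * CL * Ka * W := by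
    linarith
  have e8 : 4 * (W / (a + a / 10)) = W * (40 / 11 * N ^ 2) := by
    have : a + a / 10 = 11 / 10 * a := by ring
    rw [this, ha]; field_simp; ring
  have e9 : 3 * (W / a) = W * (3 * N ^ 2) := by rw [ha]; field_simp
  rw [e8, e9] at h1
  have h2 : W * (40 / 11 * N ^ 2) ≤ W * (3 * N ^ 2 + 3 * CT + 80 * CL * Ka) := by
    nlinarith
  have h3 := le_of_mul_le_mul_left h2 hW0
  have h4 : 80 * CL * Ka ≤ 80 * CL * (4 + Real.log (4 * CG)) + B₁ * N := by
    rw [hKa, hB₁]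
    nlinarith
  have h5 : 40 / 11 * N ^ 2 ≤ 3 * N ^ 2 + B₀ + B₁ * N := by rw [hB₀]; linarith
  nlinarith

end Pool.Agent.Helper22.GK
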